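import Pool.Agent.U645.VS.Asm
import Pool.Agent.U194.VS.Q
import Pool.Agent.U396.VS.P
import Pool.Agent.U337.VS.F
import Pool.Agent.U618.VS.D
import Pool.Agent.U884.VS.B

/-!
# Variance balanced designs with block size three: all triples `(v, λ, b)`

A block is a multiset of three points which are not all equal. A `VB(v,3,λ)` design is a finite
multiset of blocks such that the concurrence `∑ n_{iB} n_{jB}` of every two distinct points is `λ`. We
determine, for all `v ≥ 2` and `λ ≥ 1`, the numbers `b` for which there is a `VB(v,3,λ)` design with
exactly `b` blocks. With `W = λ v (v - 1) / 2` the answer for `v ≥ 3` is: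

* `λ` even: exactly the integers `b` with `W / 3 ≤ b ≤ W / 2`;
* `λ` odd: `v` has to be odd, and then exactly the integers `b` with
  `W / 3 ≤ b ≤ (W - v (v - 1) / 6) / 2`.

Proof. The triples `[i,j,k]` of a design form a multiset for which the number of triples through
every pair is at most `λ` and congruent to `λ` modulo `2`, and every such multiset can be completed by
blocks `[i,i,j]`; if it has `t` members, the design has `b = (W - t) / 2` blocks. For `λ = 2` all
numbers `t = 2 s` with `6 s ≤ v (v - 1)` occur: by induction on `v`, using Bose's construction with an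
idempotent quasigroup of order `n` for `v = 3 n, 3 n + 1, 3 n + 2`, where in each of the `n` groups the
system with the larger number of triples can be replaced by one with two triples less (`n = 2`:
explicit systems). For `λ = 1`: Steiner triple systems (`v ≡ 1, 3`), and for `v ≡ 5 (mod 6)`, `λ = 3`
systems in which one pair is in three triples and all the others are in one triple; such a pair can be
put on the pair which is missed by a system for `λ = 2`. Three systems for `λ = 2`, each missing
one pair of a triple, and this triple taken twice give all pairs six times. The general case follows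
by addition.

Packages by helper618 (`Pool/Agent/U618/VS/D.lean`, translation to triples), helper194
(`Pool/Agent/U194/VS/Q.lean`, idempotent quasigroups), helper884 (`Pool/Agent/U884/VS/B.lean`, Bose's
construction), helper396 (`Pool/Agent/U396/VS/P.lean`, small systems), helper337
(`Pool/Agent/U337/VS/F.lean`, `v ≡ 5 (mod 6)`), helper908 (`Pool/Agent/U908/VB/K.lean`, Steiner triple
systems).
-/

set_option autoImplicit false

open Finset

namespace Pool.Agent.Results.MP_e0c419_co.BlockSizeThree

/-- A block with three places: a multiset of three points which are not all equal. -/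
def IsBlock {v : ℕ} (B : Multiset (Fin v)) : Prop :=
  Multiset.card B = 3 ∧ ∃ a ∈ B, ∃ b ∈ B, a ≠ b

/-- `D` is the multiset of the blocks of a `VB(v,3,l)` design: every two distinct points have the
concurrence `l`. -/
def IsVB (v l : ℕ) (D : Multiset (Multiset (Fin v))) : Prop :=
  (∀ B ∈ D, IsBlock B) ∧
    ∀ i j : Fin v, i ≠ j → (D.map fun B => B.count i * B.count j).sum = l

/-- **The numbers of blocks of variance balanced designs with block size three.** For `v ≥ 2` and
`l ≥ 1` there is a `VB(v,3,l)` design with exactly `b` blocks if and only if `v = 2` and `l = 2 b`, or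
`v ≥ 3`, `l v (v - 1) ≤ 6 b` and either `l` is even and `4 b ≤ l v (v - 1)`, or `l` and `v` are odd and
`12 b ≤ (3 l - 1) v (v - 1)`. -/
theorem result (v l b : ℕ) (hv : 2 ≤ v) (hl : 1 ≤ l) :
    (∃ D : Multiset (Multiset (Fin v)), IsVB v l D ∧ Multiset.card D = b) ↔
      (v = 2 ∧ l = 2 * b) ∨
        (3 ≤ v ∧ l * (v * (v - 1)) ≤ 6 * b ∧
          ((Even l ∧ 4 * b ≤ l * (v * (v - 1))) ∨
            (Odd l ∧ Odd v ∧ 12 * b ≤ (3 * l - 1) * (v * (v - 1))))) := by
  by_cases h3 : 3 ≤ v
  · have h := Pool.Agent.U645.VS.assembly Pool.Agent.U618.VS.D.t_D Pool.Agent.U194.VS.t_Q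
      Pool.Agent.U884.VS.t_B Pool.Agent.U396.VS.t_P Pool.Agent.U337.VS.t_F v l b h3 hl
    constructor
    · intro hD
      exact Or.inr ⟨h3, h.1 hD⟩
    · rintro (⟨h2, -⟩ | ⟨-, h4⟩)
      · omega
      · exact h.2 h4
  · have h2 : v = 2 := by omega
    subst h2
    have h := Pool.Agent.U645.VS.two Pool.Agent.U618.VS.D.t_D l b
    constructor
    · intro hD
      exact Or.inl ⟨rfl, h.1 hD⟩
    · rintro (⟨-, h4⟩ | ⟨h4, -⟩)
      · exact h.2 h4
      · omega

end Pool.Agent.Results.MP_e0c419_co.BlockSizeThree
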